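import Pool.Agent.N943.TS.Sys
import Pool.Agent.N666.TM.Diag

/-!
# MP_c95b3b_ag: one set of density zero for Zilber's conjecture for all sparse systems

Let `A_1, …, A_r` be arbitrary finite nonempty sets of exponents in `ℤ^n` and let `V_b` be the
subvariety of the torus `(ℂ^×)^n` defined by the `r` Laurent polynomials
`f_j = ∑_{α ∈ A_j} b_jα x ^ α` (`sparseSystem A b`; every subvariety of the torus is of this form).

Let `P_0, P_1, P_2, …` be an infinite sequence of generalised polynomials `P(t) = ∑ a_x t ^ x` (finitely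
many real exponents, real coefficients, depending on `l`) with distinct leading exponents which are
positive and not integers and have positive coefficients; for example `P_l(t) = t ^ (2 l + √2)`. We
consider the coefficients

`b_jα(t) = a_jα ∏_{l < L} |⌊P_l(t)⌋| ^ e_l(j, α)`

with arbitrary nonzero complex numbers `a_jα` and integral exponents `e_l(j, α)` (positive or negative).
The exponents are supposed to be in general position: for all choices of two different elements `α_j`,
`β_j` of `A_j`, for each `j`, and every integral vector `k ≠ 0` the number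
`∑_j k_j (e_l(j, α_j) - e_l(j, β_j))` vanishes for at most `s` indices `l`, where
`s ∏_j |A_j| (|A_j| - 1) < L` (`GeneralPosition`). For one equation (`r = 1`) and `L = 1`, `s = 0` this
means that the exponents `e(α)` are distinct.

**Theorem.** There is ONE set `E` of integers of natural density zero, also of relative density zero in
the set of the primes, such that for ALL `n`, `r`, `A`, `a`, `L`, `s`, `e` as above and all finitely
generated groups `Γ` of complex numbers, for all but finitely many integers `t` outside `E`: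

* every irreducible subset `W` of the intersection of `V_{b(t)}` with a coset `η H` of an algebraic
  subgroup, such that powers of all the coordinates of `η` are in `Γ` (for `Γ = 1`: with a torsion
  coset), satisfies `dim W ≤ n - r - codim H`; in particular all components `Y` of `V_{b(t)}` have
  dimension `n - r`, and there are no atypical intersections with special subvarieties;
* `V_{b(t)}` has no point on algebraic subgroups of dimension less than `r`, so that the set `U(Y)` of the
  problem is empty for all components `Y` of `V_{b(t)}`.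

The set `E` depends on the `P_l` only. Only the integer `t` varies: the systems of the theorem are a
very thin set of all the systems with integral coefficients (for which the starting files have a
positive proportion in boxes, by one residue class).

Proof. By exponential sums and Turan's sieve (`Pool.Agent.N666.TM`) for almost all `t` every `⌊P_l(t)⌋` has
a large prime divisor `p_l` which divides it exactly once and none of the other ones. Above a large
prime there is a valuation of `ℂ` for which the `a_jα` and the elements of `Γ` are units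
(`Pool.Agent.W466`). An atypical intersection leads to a point `y` with many multiplicative relations
(`Pool.Agent.TH526.ZT.exists_special`); in each equation two terms have the same valuation at `y`. Among
the `L` valuations more than `s` lead to the same pairs of terms, and the relations give a nonzero
vector `k` as above.
-/

set_option autoImplicit false

namespace Pool.Agent.Results.MP_c95b3b_ag.OneNullSetSystems

open MvPolynomial Pool.Agent.H173R3.ZT
open Pool.Agent.Results.MP_b7926e_nt.NoAtypical (coset idealOf dim mem_idealOf)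
open Pool.Agent.Results.MP_c95b3b_ag.SUnitSystems (Coeff sparseSystem U ext ext_mem sys_eq Typical
  U_empty)

/-- `c` is the largest exponent of the generalised polynomial `∑ a_x t ^ x`; it is positive and not an
integer and has a positive coefficient. -/
def Admissible (F : Finset ℝ) (a : ℝ → ℝ) (c : ℝ) : Prop :=
  c ∈ F ∧ (∀ x ∈ F, x ≤ c) ∧ 0 < c ∧ (∀ m : ℕ, c ≠ m) ∧ 0 < a c

/-- The absolute value of the integer part of the value at `t` of the generalised polynomial `P_l`. -/
noncomputable def value (F : ℕ → Finset ℝ) (a : ℕ → ℝ → ℝ) (l t : ℕ) : ℕ :=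
  (⌊∑ x ∈ F l, a l x * (t : ℝ) ^ x⌋).natAbs

/-- `E` has density zero relative to the sets `S N`. -/
def NullIn (S : ℕ → Finset ℕ) (E : Set ℕ) : Prop :=
  ∀ ε : ℝ, 0 < ε → ∃ N₀ : ℕ, ∀ N : ℕ, N₀ ≤ N →
    ({t : ℕ | t ∈ S N ∧ t ∈ E}.ncard : ℝ) ≤ ε * (S N).card

/-- Every irreducible subset `W` of the intersection of the system of `r` equations with a coset `η H`
of an algebraic subgroup `H`, such that a power of every coordinate of `η` is in `Γ`, satisfies
`dim W ≤ n - r - codim H`, where `codim H = rank M`. -/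
def NoAtypical {n r : ℕ} (Γ : Subgroup ℂˣ) (A : Fin r → Finset (Fin n → ℤ)) (b : Coeff A → ℂ) :
    Prop :=
  ∀ (M : Submodule ℤ (Fin n → ℤ)) (η : Fin n → ℂ),
    (∀ l, ∃ m : ℕ, 0 < m ∧ ∃ γ ∈ Γ, η l ^ m = (γ : ℂ)) →
    ∀ W : Set (Fin n → ℂ), W ⊆ sparseSystem A b → W ⊆ coset M η → (idealOf W).IsPrime →
      dim W + (r : Cardinal) + (Module.finrank ℤ M : Cardinal) ≤ (n : Cardinal)

/-- For any two different elements `f j`, `g j` of `A_j`, for each `j`, and every `k ≠ 0` the number
`∑_j k_j (e_l(j, f j) - e_l(j, g j))` is zero for at most `s` indices `l`. -/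
def GeneralPosition {n r L : ℕ} (A : Fin r → Finset (Fin n → ℤ)) (s : ℕ)
    (e : Fin L → Coeff A → ℤ) : Prop :=
  ∀ f g : (j : Fin r) → {α // α ∈ A j}, (∀ j, f j ≠ g j) → ∀ k : Fin r → ℤ, k ≠ 0 →
    {l | ∑ j, k j * (e l ⟨j, f j⟩ - e l ⟨j, g j⟩) = 0}.ncard ≤ s

/-- the case of given primes -/
theorem sparse_good {n r : ℕ} (A : Fin r → Finset (Fin n → ℤ)) (hA : ∀ j, (A j).Nonempty)
    (a : Coeff A → ℂ) (ha : ∀ x, a x ≠ 0) (G₀ : Finset ℂˣ) :
    ∃ D : ℕ, ∀ L s : ℕ, (∏ j, (A j).card * ((A j).card - 1)) * s < L →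
      ∀ q : Fin L → ℕ, (∀ i, (q i).Prime ∧ D < q i) →
      ∀ e : Fin L → Coeff A → ℤ, GeneralPosition A s e → ∀ g : Coeff A → ℂ, (∀ x, g x ≠ 0) →
      (∀ i x, ∀ O : ValuationSubring ℂ, (q i : ℂ) ∈ O.nonunits →
        O.valuation (g x) = O.valuation (q i : ℂ) ^ (e i x)) →
      NoAtypical (Subgroup.closure (G₀ : Set ℂˣ)) A (fun x => a x * g x) := by
  classical
  set S : Finset ℂ := (Finset.univ.image a) ∪ G₀.image (fun c : ℂˣ => (c : ℂ)) with hS
  obtain ⟨D, hD⟩ := Pool.Agent.W466.ZC.exists_val (ι := {u // u ∈ S ∪ S.image fun u => u⁻¹})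
    (fun u => (u : ℂ))
  refine ⟨D, fun L s hL q hq e he g hg0 hg M η hη W hWV hWT hW => ?_⟩
  by_contra hcon
  rw [not_le] at hcon
  choose O hO1 hO2 using fun i : Fin L => hD (q i) (hq i).1 (hq i).2
  have hO : ∀ i, (O i).valuation (q i : ℂ) < 1 := fun i => by
    have := hO1 i
    rwa [ValuationSubring.mem_nonunits_iff] at this
  have hsO : ∀ i, ∀ u ∈ S, u ≠ 0 → (O i).valuation u = 1 := by
    intro i u hu hu0
    have h1 : u ∈ O i := hO2 i ⟨u, Finset.mem_union_left _ hu⟩
    have h2 : u⁻¹ ∈ O i := hO2 i ⟨u⁻¹, Finset.mem_union_right _ (Finset.mem_image_of_mem _ hu)⟩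
    have h3 : (O i).valuation u ≤ 1 := ((O i).valuation_le_one_iff u).2 h1
    have h4 : (O i).valuation u⁻¹ ≤ 1 := ((O i).valuation_le_one_iff _).2 h2
    refine le_antisymm h3 ?_
    have h5 : (O i).valuation u * (O i).valuation u⁻¹ = 1 := by
      rw [← map_mul, mul_inv_cancel₀ hu0, map_one]
    calc (1 : _) = (O i).valuation u * (O i).valuation u⁻¹ := h5.symm
      _ ≤ (O i).valuation u * 1 := by gcongr
      _ = (O i).valuation u := mul_one _
  have hη0 : ∀ l, η l ≠ 0 := by
    intro l h0
    obtain ⟨m, hm, γ, -, hγ⟩ := hη l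
    rw [h0, zero_pow hm.ne'] at hγ
    exact γ.ne_zero hγ.symm
  have hηO : ∀ i l, (O i).valuation (η l) = 1 := by
    intro i l
    obtain ⟨m, hm, γ, hγΓ, hγ⟩ := hη l
    have h1 : (O i).valuation (γ : ℂ) = 1 := by
      refine val_closure G₀ (fun u hu => hsO i _ ?_ u.ne_zero) γ hγΓ
      rw [hS]
      exact Finset.mem_union_right _ (Finset.mem_image_of_mem _ hu)
    have h2 := congrArg (O i).valuation hγ
    rw [map_pow, h1] at h2
    exact (pow_eq_one_iff_of_nonneg zero_le hm.ne').1 h2
  have haO : ∀ i x, (O i).valuation (a x) = 1 := fun i x => hsO i _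
    (by rw [hS]; exact Finset.mem_union_left _ (Finset.mem_image_of_mem _ (Finset.mem_univ x)))
    (ha x)
  let ex : Fin L → Fin r → (Fin n → ℤ) → ℤ := fun i j α =>
    if h : α ∈ A j then e i ⟨j, α, h⟩ else 0
  have hex : ∀ i j α (h : α ∈ A j), ex i j α = e i ⟨j, α, h⟩ := fun i j α h => dif_pos h
  obtain ⟨σ, hσ, k, hk, hlt⟩ := Pool.Agent.N943.TS.sys_val A hA L s
    (by rwa [Pool.Agent.TH526.ZT.card_pairs]) O (fun i => (q i : ℂ)) hO
    (fun i => Nat.cast_ne_zero.2 (hq i).1.ne_zero) (ext A fun x => a x * g x)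
    (fun j α hα => by rw [ext_mem A _ j α hα]; exact mul_ne_zero (ha _) (hg0 _))
    ex
    (fun i j α hα => by
      rw [ext_mem A _ j α hα, map_mul, haO, one_mul, hex i j α hα]
      exact hg i _ (O i) (hO1 i))
    M η hη0 hηO W (by rw [sys_eq]; exact hWV) hWT hW hcon
  have hσA : ∀ j, (σ j).1 ∈ A j ∧ (σ j).2 ∈ A j ∧ (σ j).1 ≠ (σ j).2 := fun j => by
    have := Fintype.mem_piFinset.1 hσ j
    rwa [Finset.mem_offDiag] at this
  have h1 := he (fun j => ⟨(σ j).1, (hσA j).1⟩) (fun j => ⟨(σ j).2, (hσA j).2.1⟩)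
    (fun j h => (hσA j).2.2 (congrArg Subtype.val h)) k hk
  have h2 : {i | ∑ j, k j * (ex i j (σ j).1 - ex i j (σ j).2) = 0} =
      {l | ∑ j, k j * (e l ⟨j, (σ j).1, (hσA j).1⟩ - e l ⟨j, (σ j).2, (hσA j).2.1⟩) = 0} := by
    ext l
    simp only [Set.mem_setOf_eq]
    rw [Finset.sum_congr rfl fun j _ => by
      rw [hex l j _ (hσA j).1, hex l j _ (hσA j).2.1]]
  rw [h2] at hlt
  exact absurd h1 (not_le.2 hlt)

theorem typical_of_noAtypical {n r : ℕ} {Γ : Subgroup ℂˣ} {A : Fin r → Finset (Fin n → ℤ)}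
    {b : Coeff A → ℂ} (h : NoAtypical Γ A b) : Typical A b := by
  intro M η hη W hWV hWT hW
  exact h M η (fun l => by
    obtain ⟨m, hm, h1⟩ := hη
    exact ⟨m, hm, 1, Subgroup.one_mem _, by rw [h1 l, Units.val_one]⟩) W hWV hWT hW

theorem result (F : ℕ → Finset ℝ) (a : ℕ → ℝ → ℝ) (c : ℕ → ℝ) (h : ∀ l, Admissible (F l) (a l) (c l))
    (hc : Function.Injective c) :
    ∃ E : Set ℕ, NullIn (fun N => Finset.Ioc N (2 * N)) E ∧
      NullIn (fun N => (Finset.Ioc N (2 * N)).filter Nat.Prime) E ∧
      ∀ (n r : ℕ) (A : Fin r → Finset (Fin n → ℤ)), (∀ j, (A j).Nonempty) →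
        ∀ u : Coeff A → ℂ, (∀ x, u x ≠ 0) → ∀ Γ : Subgroup ℂˣ, Γ.FG →
        ∀ L s : ℕ, (∏ j, (A j).card * ((A j).card - 1)) * s < L →
          ∀ e : Fin L → Coeff A → ℤ, GeneralPosition A s e →
            {t : ℕ | t ∉ E ∧ ¬ (NoAtypical Γ A (fun x => u x *
                ∏ l : Fin L, (value F a l t : ℂ) ^ e l x) ∧
              U A (fun x => u x * ∏ l : Fin L, (value F a l t : ℂ) ^ e l x) = ∅)}.Finite := by
  obtain ⟨E, h1, h2, h3⟩ := Pool.Agent.N666.TM.one_null_set h hc
  refine ⟨E, h1, h2, fun n r A hA u hu Γ hΓ L s hL e he => ?_⟩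
  obtain ⟨G₀, hG₀⟩ := hΓ
  obtain ⟨D, hD⟩ := sparse_good A hA u hu G₀
  refine (h3 (D + L)).subset ?_
  rintro t ⟨htE, ht⟩
  refine ⟨htE, fun hgood => ht ?_⟩
  choose p hp1 hp2 hp3 hp4 hp5 using hgood
  have hlt : ∀ l : Fin L, (l : ℕ) < D + L + 1 := fun l => by have := l.2; omega
  -- the divisibilities for the absolute values
  have hd1 : ∀ l : Fin L, p l (hlt l) ∣ value F a l t := fun l => Int.natCast_dvd.mp (hp3 l (hlt l))
  have hd2 : ∀ l : Fin L, ¬ p l (hlt l) ^ 2 ∣ value F a l t := by
    intro l hd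
    apply hp4 l (hlt l)
    have := Int.natCast_dvd.mpr hd
    push_cast at this
    exact this
  have hd3 : ∀ l l' : Fin L, l' ≠ l → ¬ p l (hlt l) ∣ value F a l' t := fun l l' hl' hd =>
    hp5 l (hlt l) l' (hlt l') (fun heq => hl' (Fin.ext heq)) (Int.natCast_dvd.mpr hd)
  have hne : ∀ l : Fin L, (value F a l t : ℂ) ≠ 0 := by
    intro l h0
    apply hd2 l
    have h4 : value F a l t = 0 := by exact_mod_cast h0
    rw [h4]
    exact dvd_zero _
  have hunit : ∀ (l : Fin L) (O : ValuationSubring ℂ), (p l (hlt l) : ℂ) ∈ O.nonunits →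
      ∀ k : ℕ, ¬ p l (hlt l) ∣ k → O.valuation (k : ℂ) = 1 := by
    intro l O hO k hk
    rw [ValuationSubring.mem_nonunits_iff] at hO
    have h4 : IsCoprime (k : ℤ) ((p l (hlt l) : ℕ) : ℤ) :=
      Nat.isCoprime_iff_coprime.2 (((hp1 l (hlt l)).coprime_iff_not_dvd.2 hk).symm)
    have h5 := Pool.Agent.H173R3.ZT.val_int_eq_one O hO h4
    simpa using h5
  have hgood' : NoAtypical (Subgroup.closure (G₀ : Set ℂˣ)) A (fun x => u x *
      ∏ l : Fin L, (value F a l t : ℂ) ^ e l x) := by
    refine hD L s hL (fun l => p l (hlt l)) (fun l => ⟨hp1 l (hlt l), ?_⟩) e he _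
      (fun j => Finset.prod_ne_zero_iff.2 fun l _ => zpow_ne_zero _ (hne l)) (fun i j O hO => ?_)
    · have := hp2 l (hlt l)
      change D < p l (hlt l)
      omega
    · rw [map_prod, Finset.prod_eq_single i]
      · rw [map_zpow₀]
        congr 1
        obtain ⟨k, hk⟩ := hd1 i
        have hk2 : ¬ p i (hlt i) ∣ k := by
          rintro ⟨r, hr⟩
          apply hd2 i
          rw [hk, hr]
          exact ⟨r, by ring⟩
        rw [hk]
        push_cast
        rw [map_mul, hunit i O hO k hk2, mul_one]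
      · intro l _ hl
        rw [map_zpow₀, hunit i O hO _ (hd3 i l hl), one_zpow]
      · intro hi
        exact absurd (Finset.mem_univ i) hi
  rw [hG₀] at hgood'
  exact ⟨hgood', U_empty A _ (typical_of_noAtypical hgood')⟩

end Pool.Agent.Results.MP_c95b3b_ag.OneNullSetSystems
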