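import Pool.Agent.N902.OP.GeoU

/-!
# MP_c95b3b_ag: for Zilber's conjecture on tori the optimal points of linear varieties suffice

The definitions are in `Pool/Agent/R948/Var.lean`. For a field `k` and a finite set `ι` the torus is
`ι → kˣ`, and

* `ZClosed A`: `A` is the set of the zeros in the torus of some set of polynomials in the coordinates;
* `Subvariety A`: `A` is an irreducible Zariski closed subset of the torus; `vdim A`: its dimension;
* `hull A`: the intersection of all torsion cosets which contain `A` (the smallest torsion coset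
  containing `A`);
* `defect A = vdim (hull A) - vdim A`;
* `Optimal A V`: `A ⊆ V` is a subvariety, and no subvariety `B` with `A ⊂ B ⊆ V` (proper inclusion)
  has `defect B ≤ defect A`;
* `linePow ℂ M` is the `M`-th power of the line `x + y = 1` in `G_m ^ 2`.

**Theorem.** The following statements are equivalent.

1. (Q1.) For all `n` and all irreducible closed `Y` in the torus of dimension `n` over `ℂ`: if `U(Y)` is
   Zariski dense in `Y`, then `Y` is contained in a proper algebraic subgroup.
2. Over every algebraically closed field of characteristic zero every subvariety of every torus has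
   only finitely many optimal subvarieties.
3. Every closed subset of a torus over `ℂ` which is defined by polynomials of degree at most one has only
   finitely many optimal points.
4. For every `M` and every `J ⊆ {1, …, M}` there are algebraically independent numbers `γ_1, …, γ_M`
   such that the slice `x_j = γ_j`, `j ∈ J`, of the power `x_i + y_i = 1`, `i ≤ M`, of the line has only
   finitely many optimal points.

The slice in 4 is a product of the `m`-th power of the line `x + y = 1`, `m = M - |J|`, and of one point
`(γ_j, 1 - γ_j)`, `j ∈ J`. So Q1 is a statement on isolated points on the powers of the line, and on their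
multiplicative relations modulo the free group which is generated by the numbers `γ_j`, `1 - γ_j`:
neither atypical subvarieties of positive dimension, nor nonlinear varieties, nor special
coefficients have to be considered.

That 2 follows from the finiteness of all the optimal subvarieties of the powers of the line over the
algebraic numbers is the theorem `MP_defd1c_ag.PowersOfALine` of this repository (`Pool.Agent.R948.Opt`),
which is used. The new part of the proof: if `A` is an optimal subvariety, of dimension `d`, of a power of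
the line over the algebraic numbers, then `d` of the coordinates `x_i` form a transcendence basis of its
function field, and if they are fixed to algebraically independent numbers, then `A` becomes a finite set
of points, which are optimal in the corresponding slice: the closure over the algebraic numbers of a
larger subvariety `B` of the slice has dimension at least `dim B + d`.
-/

set_option autoImplicit false

namespace Pool.Agent.Results.MP_c95b3b_ag.OptimalPoints

open Pool.Agent.R948 Pool.Agent.N902.OP

/-- The set `U(Y)` of the points of `Y` on algebraic subgroups `H` with `dim Y + dim H ≤ n - 1`. The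
algebraic subgroups of dimension `n - r` of the torus are the sets `x ^ a = 1`, `a ∈ Λ`, for the
subgroups `Λ` of rank `r` of `ℤ ^ n`. -/
def U {n : ℕ} (Y : Set (Fin n → ℂˣ)) : Set (Fin n → ℂˣ) :=
  {x | x ∈ Y ∧ ∃ Λ : Submodule ℤ (Fin n → ℤ), vdim Y + (n - Module.finrank ℤ Λ) + 1 ≤ n ∧
    ∀ a ∈ Λ, ∏ i, x i ^ a i = 1}

/-- Q1: if `U(Y)` is Zariski dense in `Y` then `Y` is contained in a proper algebraic subgroup. -/
def ZilberConjecture : Prop :=
  ∀ (n : ℕ) (Y : Set (Fin n → ℂˣ)), Subvariety Y →
    (∀ f : MvPolynomial (Fin n) ℂ, (∀ x ∈ U Y, MvPolynomial.eval (fun i => (x i : ℂ)) f = 0) →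
      ∀ x ∈ Y, MvPolynomial.eval (fun i => (x i : ℂ)) f = 0) →
    ∃ a : Fin n → ℤ, a ≠ 0 ∧ ∀ x ∈ Y, ∏ i, x i ^ a i = 1

theorem mem_U {n : ℕ} (Y : Set (Fin n → ℂˣ)) (x : Fin n → ℂˣ) :
    x ∈ U Y ↔ x ∈ Y ∧ vdim Y + 1 ≤ dr x := by
  have h0 := dr_le_card x
  rw [Fintype.card_fin] at h0
  constructor
  · rintro ⟨h1, Λ, h2, h3⟩
    have h4 := le_dr x Λ h3
    exact ⟨h1, by omega⟩
  · rintro ⟨h1, h2⟩
    obtain ⟨Λ, h3, h4⟩ := exists_lat x
    exact ⟨h1, Λ, by omega, h4⟩

theorem result :
    (ZilberConjecture ↔
      ∀ (k : Type) [Field k] [IsAlgClosed k] [CharZero k] (ι : Type) [Fintype ι]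
        (V : Set (ι → kˣ)), Subvariety V → {A | Optimal A V}.Finite) ∧
    (ZilberConjecture ↔
      ∀ (ι : Type) [Fintype ι] (S : Set (MvPolynomial ι ℂ)), (∀ f ∈ S, f.totalDegree ≤ 1) →
        {x | Optimal {x} (zeros S)}.Finite) ∧
    (ZilberConjecture ↔
      ∀ (M : ℕ) (J : Finset (Fin M)), ∃ γ : Fin M → ℂ, AlgebraicIndependent ℚ γ ∧
        {x | Optimal {x}
          {y | y ∈ linePow ℂ M ∧ ∀ j ∈ J, (y (Sum.inl j) : ℂ) = γ j}}.Finite) := by
  have h13 : ZilberConjecture → ∀ (ι : Type) [Fintype ι] (V : Set (ι → ℂˣ)), ZClosed V →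
      {x | Optimal {x} V}.Finite := by
    intro h ι _ V hV
    refine t_points_of_zilber (fun n Y hY hd => ?_) V hV
    exact h n Y hY fun f hf => hd f fun x hx hx2 => hf x ((mem_U Y x).2 ⟨hx, hx2⟩)
  have h34 : (∀ (ι : Type) [Fintype ι] (S : Set (MvPolynomial ι ℂ)), (∀ f ∈ S, f.totalDegree ≤ 1) →
        {x | Optimal {x} (zeros S)}.Finite) →
      ∀ (M : ℕ) (J : Finset (Fin M)), ∃ γ : Fin M → ℂ, AlgebraicIndependent ℚ γ ∧
        {x | Optimal {x} (lineSlice M J γ)}.Finite := by
    intro h M J
    obtain ⟨γ, hγ⟩ := t_exists_indep (Fin M)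
    obtain ⟨S, hS1, hS2⟩ := t_slice_linear M J γ
    refine ⟨γ, hγ, ?_⟩
    rw [hS2]
    exact h _ S hS1
  have h42 : (∀ (M : ℕ) (J : Finset (Fin M)), ∃ γ : Fin M → ℂ, AlgebraicIndependent ℚ γ ∧
        {x | Optimal {x} (lineSlice M J γ)}.Finite) →
      ∀ (k : Type) [Field k] [IsAlgClosed k] [CharZero k] (ι : Type) [Fintype ι]
        (V : Set (ι → kˣ)), Subvariety V → {A | Optimal A V}.Finite :=
    fun h k _ _ _ ι _ V hV => t_all_of_slices h V hV.closed
  have h21 : (∀ (k : Type) [Field k] [IsAlgClosed k] [CharZero k] (ι : Type) [Fintype ι]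
        (V : Set (ι → kˣ)), Subvariety V → {A | Optimal A V}.Finite) → ZilberConjecture := by
    intro h n Y hY hd
    refine t_zilber_of_optimal Y hY (h ℂ (Fin n) Y hY) fun f hf => hd f fun x hx => ?_
    obtain ⟨h1, h2⟩ := (mem_U Y x).1 hx
    exact hf x h1 h2
  exact ⟨⟨fun h => h42 (h34 fun ι _ S _ => h13 h ι _ ⟨S, rfl⟩), h21⟩,
    ⟨fun h ι _ S _ => h13 h ι _ ⟨S, rfl⟩, fun h => h21 (h42 (h34 h))⟩,
    ⟨fun h => h34 fun ι _ S _ => h13 h ι _ ⟨S, rfl⟩, fun h => h21 (h42 h)⟩⟩

end Pool.Agent.Results.MP_c95b3b_ag.OptimalPoints
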