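import Pool.Agent.TH526.ZT.D
import Pool.Agent.TH526.ZT.J
import Pool.Agent.Results.MP_c95b3b_ag.SUnitSystems

/-!
# MP_c95b3b_ag: Zilber's conjecture for all but finitely many members of exponential families of
sparse systems of equations

Let `A_1, …, A_r` be arbitrary finite nonempty sets of exponents in `ℤ^n` and let `V_b` be the
subvariety of the torus `(ℂ^×)^n` defined by the `r` Laurent polynomials
`f_j = ∑_{α ∈ A_j} b_jα x ^ α` (every subvariety of the torus is of this form). Let `u_jα` be any nonzero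
complex numbers. We consider the systems with the coefficients

`b_jα(m) = u_jα g_jα ^ m` for integers `m`, and more generally
`b_jα(m) = u_jα g_{1,jα} ^ {m_1} ⋯ g_{d,jα} ^ {m_d}` for integral vectors `m` in a closed cone `C`.

(1) Suppose that the `g_jα` are nonzero rational numbers, `p_i`, `i < N`, are prime numbers,
`t ∏_j |A_j| (|A_j| - 1) < N`, and that for any two different elements `α_j`, `β_j` of `A_j`, for each
`j`, any `t` of the `N` vectors `(v_{p_i}(g_{j α_j}) - v_{p_i}(g_{j β_j}))_j` span `ℚ^r`. Then for all but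
finitely many integers `m`

* `V_{b(m)}` has no atypical intersection with a torsion coset: every irreducible subset `W` of the
  intersection of `V_{b(m)}` with a torsion coset of codimension `k` satisfies `dim W ≤ n - r - k` (in
  particular all components `Y` of `V_{b(m)}` have the dimension `n - r`), and
* `V_{b(m)}` has no point on algebraic subgroups of dimension less than `r`, so that the set `U(Y)` of
  the problem is empty for all components `Y` of `V_{b(m)}`.

(2) The same for nonzero elements `g_jα` of a countable field `F` in `ℂ` (for example units of a number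
field) with `N` absolute values of `F`, archimedean or not.

(3) The same with several parameters, for absolute values of `ℂ`, if the condition is satisfied for the
real vectors `m ≠ 0` in the closed cone `C`, and for all cosets bounded at these absolute values.

For one equation (`r = t = 1`) the condition in (1) says that the valuations of the `g_α`, `α ∈ A`, at
each of the primes `p_i` are distinct. The starting result `PowerTranslates` is about translates of one
variety: `g_jα` is the value at `α` of one homomorphism for all `j`; here all coefficients of the system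
vary independently. The starting result `SUnitSystems` is about almost all vectors of exponents in
boxes, here the exceptions are finite in number, in families with one or several parameters.
-/

set_option autoImplicit false

namespace Pool.Agent.Results.MP_c95b3b_ag.PowerSystems

open MvPolynomial
open Pool.Agent.Results.MP_b7926e_nt.NoAtypical (coset idealOf dim mem_idealOf)
open Pool.Agent.Results.MP_c95b3b_ag.SUnitSystems (Coeff sparseSystem U ext ext_mem sys_eq Typical
  TypicalWithin U_empty)

/-- The coefficients `u_x g_{1,x} ^ {m_1} ⋯ g_{d,x} ^ {m_d}`. -/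
noncomputable def member {X : Type} {d : ℕ} (u : X → ℂ) (g : Fin d → X → ℂ) (m : Fin d → ℤ) :
    X → ℂ :=
  fun x => u x * ∏ k, g k x ^ m k

/-- For any two different elements `f j`, `f' j` of `A_j`, for each `j`, and all nonzero `m` in `C` any
`t` of the vectors `(∑_k m_k (log v_i(g_k(f j)) - log v_i(g_k(f' j))))_j` span `ℝ^r`. -/
def GeneralPosition {n r d N : ℕ} (A : Fin r → Finset (Fin n → ℤ)) (t : ℕ)
    (v : Fin N → AbsoluteValue ℂ ℝ) (g : Fin d → Coeff A → ℂ) (C : Set (Fin d → ℝ)) : Prop :=
  ∀ f f' : (j : Fin r) → {α // α ∈ A j}, (∀ j, f j ≠ f' j) →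
    ∀ m ∈ C, m ≠ 0 → ∀ T : Finset (Fin N), T.card = t →
      Submodule.span ℝ (Set.range fun (i : T) (j : Fin r) =>
        ∑ k, m k * (Real.log (v i (g k ⟨j, f j⟩)) - Real.log (v i (g k ⟨j, f' j⟩)))) = ⊤

/-- A non-archimedean absolute value or the absolute value given by an embedding into `ℂ`. -/
def IsPlace {F : Type} [Field F] (w : AbsoluteValue F ℝ) : Prop :=
  IsNonarchimedean w ∨ ∃ σ : F →+* ℂ, ∀ x, w x = ‖σ x‖

/-- The general case. -/
theorem general {n r : ℕ} (A : Fin r → Finset (Fin n → ℤ)) (hA : ∀ j, (A j).Nonempty) (N t : ℕ)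
    (hN : (∏ j, (A j).card * ((A j).card - 1)) * t < N) (v : Fin N → AbsoluteValue ℂ ℝ) (d : ℕ)
    (u : Coeff A → ℂ) (hu : ∀ x, u x ≠ 0) (g : Fin d → Coeff A → ℂ) (hg : ∀ k x, g k x ≠ 0)
    (C : Set (Fin d → ℝ)) (hC : IsClosed C) (hcone : ∀ m ∈ C, ∀ s : ℝ, 0 < s → s • m ∈ C)
    (hgen : GeneralPosition A t v g C) (B : ℝ) :
    {m : Fin d → ℤ | (fun k => (m k : ℝ)) ∈ C ∧ ¬ TypicalWithin v B A (member u g m)}.Finite := by
  classical
  obtain ⟨B', hmain⟩ := TH526.ZT.sys_criterion A hA N t (by rwa [TH526.ZT.card_pairs]) v B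
  -- the bound for the constants
  let Bu : ℝ := ∑ i, ∑ x, |Real.log (v i (u x))|
  have hBu : ∀ i x, |Real.log (v i (u x))| ≤ Bu := fun i x =>
    (Finset.single_le_sum (f := fun x => |Real.log (v i (u x))|)
      (fun _ _ => abs_nonneg _) (Finset.mem_univ x)).trans
    (Finset.single_le_sum (f := fun i => ∑ x, |Real.log (v i (u x))|)
      (fun _ _ => Finset.sum_nonneg fun _ _ => abs_nonneg _) (Finset.mem_univ i))
  have hBu0 : 0 ≤ Bu := Finset.sum_nonneg fun _ _ => Finset.sum_nonneg fun _ _ => abs_nonneg _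
  have hcb : ∀ s : Fin r → (Fin n → ℤ) × (Fin n → ℤ), ∃ R : ℝ, s ∈ TH526.ZT.pairs A →
      ∀ m ∈ C, ∀ T : Finset (Fin N), T.card = t → ∀ φ : Fin r → ℝ, ‖φ‖ = 1 →
      (∀ i ∈ T, |∑ j, φ j * ∑ k, m k * (Real.log (v i (ext A (g k) j (s j).1)) -
        Real.log (v i (ext A (g k) j (s j).2)))| ≤ B' + r * (2 * Bu)) → ‖m‖ ≤ R := by
    intro s
    by_cases hs : s ∈ TH526.ZT.pairs A
    · have hsA : ∀ j, (s j).1 ∈ A j ∧ (s j).2 ∈ A j ∧ (s j).1 ≠ (s j).2 := fun j => by
        have := Fintype.mem_piFinset.1 hs j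
        rwa [Finset.mem_offDiag] at this
      obtain ⟨R, hR⟩ := TH526.ZT.cone_bound t (fun k i j =>
        Real.log (v i (ext A (g k) j (s j).1)) - Real.log (v i (ext A (g k) j (s j).2))) C hC hcone
        (fun m hm hm0 T hT => by
          have h1 := hgen (fun j => ⟨(s j).1, (hsA j).1⟩) (fun j => ⟨(s j).2, (hsA j).2.1⟩)
            (fun j h => (hsA j).2.2 (congrArg Subtype.val h)) m hm hm0 T hT
          rw [← h1]
          congr 2
          funext i j
          refine Finset.sum_congr rfl fun k _ => ?_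
          rw [ext_mem A (g k) j _ (hsA j).1, ext_mem A (g k) j _ (hsA j).2.1]) (B' + r * (2 * Bu))
      exact ⟨R, fun _ => hR⟩
    · exact ⟨0, fun h => absurd h hs⟩
  choose R hR using hcb
  let R₀ : ℝ := ∑ s ∈ TH526.ZT.pairs A, |R s|
  have hfin : (Set.pi Set.univ fun _ : Fin d => Set.Icc (-⌈R₀⌉) ⌈R₀⌉).Finite :=
    Set.Finite.pi fun _ => Set.finite_Icc _ _
  refine hfin.subset ?_
  rintro m ⟨hmC, hm⟩
  have hb0 : ∀ x, member u g m x ≠ 0 := fun x =>
    mul_ne_zero (hu x) (Finset.prod_ne_zero_iff.2 fun k _ => zpow_ne_zero _ (hg k x))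
  have hlog : ∀ i x, Real.log (v i (member u g m x)) = Real.log (v i (u x)) +
      ∑ k, (m k : ℝ) * Real.log (v i (g k x)) := by
    intro i x
    rw [member, map_mul, Real.log_mul ((v i).ne_zero (hu x)) ((v i).ne_zero
      (Finset.prod_ne_zero_iff.2 fun k _ => zpow_ne_zero _ (hg k x))), map_prod, Real.log_prod]
    · congr 1
      refine Finset.sum_congr rfl fun k _ => ?_
      rw [map_zpow₀, Real.log_zpow]
    · intro k _
      rw [map_zpow₀]
      exact zpow_ne_zero _ ((v i).ne_zero (hg k x))
  rw [TypicalWithin] at hm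
  push Not at hm
  obtain ⟨M, η, hη, hηB, W, hWV, hWT, hW, hdim⟩ := hm
  obtain ⟨T, hT, s, hs, φ, hφ, hφB⟩ := hmain (ext A (member u g m))
    (fun j α hα => by rw [ext_mem A _ j α hα]; exact hb0 _) M η hη hηB W
    (by rw [sys_eq]; exact hWV) hWT hW hdim
  have hsA : ∀ j, (s j).1 ∈ A j ∧ (s j).2 ∈ A j ∧ (s j).1 ≠ (s j).2 := fun j => by
    have := Fintype.mem_piFinset.1 hs j
    rwa [Finset.mem_offDiag] at this
  have hnorm := hR s hs _ hmC T hT φ hφ (fun i hi => by
    have h1 := hφB i hi
    have h2 : ∑ j, φ j * ∑ k, (m k : ℝ) * (Real.log (v i (ext A (g k) j (s j).1)) -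
        Real.log (v i (ext A (g k) j (s j).2))) =
        ∑ j, φ j * (Real.log (v i (ext A (member u g m) j (s j).1)) -
          Real.log (v i (ext A (member u g m) j (s j).2))) -
        ∑ j, φ j * (Real.log (v i (u ⟨j, (s j).1, (hsA j).1⟩)) -
          Real.log (v i (u ⟨j, (s j).2, (hsA j).2.1⟩))) := by
      rw [← Finset.sum_sub_distrib]
      refine Finset.sum_congr rfl fun j _ => ?_
      rw [ext_mem A (member u g m) j _ (hsA j).1, ext_mem A (member u g m) j _ (hsA j).2.1,
        hlog, hlog]
      have h3 : ∑ k, (m k : ℝ) * (Real.log (v i (ext A (g k) j (s j).1)) -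
          Real.log (v i (ext A (g k) j (s j).2))) =
          ∑ k, (m k : ℝ) * Real.log (v i (g k ⟨j, (s j).1, (hsA j).1⟩)) -
          ∑ k, (m k : ℝ) * Real.log (v i (g k ⟨j, (s j).2, (hsA j).2.1⟩)) := by
        rw [← Finset.sum_sub_distrib]
        refine Finset.sum_congr rfl fun k _ => ?_
        rw [ext_mem A (g k) j _ (hsA j).1, ext_mem A (g k) j _ (hsA j).2.1]
        ring
      rw [h3]
      ring
    have h3 : |∑ j, φ j * (Real.log (v i (u ⟨j, (s j).1, (hsA j).1⟩)) -
          Real.log (v i (u ⟨j, (s j).2, (hsA j).2.1⟩)))| ≤ r * (2 * Bu) := by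
      refine (Finset.abs_sum_le_sum_abs _ _).trans ?_
      calc ∑ j, |φ j * (Real.log (v i (u ⟨j, (s j).1, (hsA j).1⟩)) -
            Real.log (v i (u ⟨j, (s j).2, (hsA j).2.1⟩)))|
          ≤ ∑ _j : Fin r, (1 : ℝ) * (2 * Bu) := by
            refine Finset.sum_le_sum fun j _ => ?_
            rw [abs_mul]
            refine mul_le_mul (hφ ▸ norm_le_pi_norm φ j) ?_ (abs_nonneg _) zero_le_one
            refine (abs_sub _ _).trans ?_
            have h4 := hBu i ⟨j, (s j).1, (hsA j).1⟩
            have h5 := hBu i ⟨j, (s j).2, (hsA j).2.1⟩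
            linarith
        _ = r * (2 * Bu) := by
          rw [Finset.sum_const, Finset.card_univ, Fintype.card_fin, nsmul_eq_mul, one_mul]
    rw [h2]
    exact (abs_sub _ _).trans (add_le_add h1 h3))
  intro k _
  have h1 : |(m k : ℝ)| ≤ R₀ := by
    calc |(m k : ℝ)| ≤ ‖fun k => (m k : ℝ)‖ := norm_le_pi_norm (fun k => (m k : ℝ)) k
      _ ≤ R s := hnorm
      _ ≤ |R s| := le_abs_self _
      _ ≤ R₀ := Finset.single_le_sum (f := fun s => |R s|) (fun _ _ => abs_nonneg _) hs
  have h2 : |(m k : ℝ)| ≤ (⌈R₀⌉ : ℝ) := h1.trans (Int.le_ceil R₀)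
  have h3 : |m k| ≤ ⌈R₀⌉ := by exact_mod_cast h2
  exact Set.mem_Icc.2 (abs_le.1 h3)

/-- Let `A_1, …, A_r` be finite nonempty subsets of `ℤ^n`, `t ∏_j |A_j| (|A_j| - 1) < N`, and let `u_jα`
be nonzero complex numbers.

(1) If the `g_jα` are nonzero rational numbers and if for any two different elements of `A_j`, for each
`j`, any `t` of the vectors of the differences of the valuations at `N` prime numbers span `ℚ^r`, then
for all but finitely many integers `m` the system with the coefficients `u_jα g_jα ^ m` has no atypical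
intersection with a torsion coset and no point on algebraic subgroups of dimension less than `r`;

(2) the same for nonzero elements `g_jα` of a countable field `F` in `ℂ` and the vectors of
`log v_i(g_{j α_j}) - log v_i(g_{j β_j})` for `N` absolute values of `F`, archimedean or not;

(3) if for all real `m ≠ 0` in the closed cone `C` the corresponding vectors for
`g_1 ^ {m_1} ⋯ g_d ^ {m_d}` at `N` absolute values of `ℂ` have this property, then for every `B` and for
all but finitely many integral points `m` of `C` the system with the coefficients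
`u g_1 ^ {m_1} ⋯ g_d ^ {m_d}` has no atypical intersection with a coset bounded by `B` at these
absolute values. -/
theorem result {n r : ℕ} (A : Fin r → Finset (Fin n → ℤ)) (hA : ∀ j, (A j).Nonempty) (N t : ℕ)
    (hN : (∏ j, (A j).card * ((A j).card - 1)) * t < N) (u : Coeff A → ℂ) (hu : ∀ x, u x ≠ 0) :
    (∀ p : Fin N → ℕ, (∀ i, (p i).Prime) → ∀ g : Coeff A → ℚ, (∀ x, g x ≠ 0) →
      (∀ f f' : (j : Fin r) → {α // α ∈ A j}, (∀ j, f j ≠ f' j) →
        ∀ T : Finset (Fin N), T.card = t →
          Submodule.span ℚ (Set.range fun (i : T) (j : Fin r) =>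
            ((padicValRat (p i) (g ⟨j, f j⟩) - padicValRat (p i) (g ⟨j, f' j⟩) : ℤ) : ℚ)) = ⊤) →
      {m : ℤ | ¬ (Typical A (fun x => u x * (g x : ℂ) ^ m) ∧
        U A (fun x => u x * (g x : ℂ) ^ m) = ∅)}.Finite) ∧
    (∀ (F : Type) [Field F] [Countable F] [Algebra F ℂ] (v : Fin N → AbsoluteValue F ℝ),
      (∀ i, IsPlace (v i)) → ∀ g : Coeff A → F, (∀ x, g x ≠ 0) →
      (∀ f f' : (j : Fin r) → {α // α ∈ A j}, (∀ j, f j ≠ f' j) →
        ∀ T : Finset (Fin N), T.card = t →
          Submodule.span ℝ (Set.range fun (i : T) (j : Fin r) =>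
            Real.log (v i (g ⟨j, f j⟩)) - Real.log (v i (g ⟨j, f' j⟩))) = ⊤) →
      {m : ℤ | ¬ (Typical A (fun x => u x * algebraMap F ℂ (g x) ^ m) ∧
        U A (fun x => u x * algebraMap F ℂ (g x) ^ m) = ∅)}.Finite) ∧
    (∀ (v : Fin N → AbsoluteValue ℂ ℝ) (d : ℕ) (g : Fin d → Coeff A → ℂ), (∀ k x, g k x ≠ 0) →
      ∀ C : Set (Fin d → ℝ), IsClosed C → (∀ m ∈ C, ∀ s : ℝ, 0 < s → s • m ∈ C) →
        GeneralPosition A t v g C → ∀ B : ℝ,
          {m : Fin d → ℤ | (fun k => (m k : ℝ)) ∈ C ∧
            ¬ TypicalWithin v B A (member u g m)}.Finite) := by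
  classical
  have key : ∀ (v : Fin N → AbsoluteValue ℂ ℝ) (g : Coeff A → ℂ), (∀ x, g x ≠ 0) →
      (∀ f f' : (j : Fin r) → {α // α ∈ A j}, (∀ j, f j ≠ f' j) →
        ∀ T : Finset (Fin N), T.card = t →
          Submodule.span ℝ (Set.range fun (i : T) (j : Fin r) =>
            Real.log (v i (g ⟨j, f j⟩)) - Real.log (v i (g ⟨j, f' j⟩))) = ⊤) →
      {m : ℤ | ¬ (Typical A (fun x => u x * g x ^ m) ∧
        U A (fun x => u x * g x ^ m) = ∅)}.Finite := by
    intro v g hg hspan
    have hgp : GeneralPosition A t v (fun (_ : Fin 1) x => g x) Set.univ := by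
      intro f f' hf m _ hm T hT
      have hm0 : m 0 ≠ 0 := by
        intro h0
        apply hm
        funext k
        rw [Subsingleton.elim k 0]
        exact h0
      have h1 := hspan f f' hf T hT
      rw [eq_top_iff] at h1 ⊢
      refine h1.trans (Submodule.span_le.2 ?_)
      rintro _ ⟨i, rfl⟩
      have h2 : (fun j : Fin r => Real.log (v i (g ⟨j, f j⟩)) - Real.log (v i (g ⟨j, f' j⟩))) =
          (m 0)⁻¹ • fun j : Fin r => ∑ k : Fin 1, m k * (Real.log (v i (g ⟨j, f j⟩)) -
            Real.log (v i (g ⟨j, f' j⟩))) := by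
        funext j
        simp only [Finset.univ_unique, Fin.default_eq_zero, Finset.sum_singleton, Pi.smul_apply,
          smul_eq_mul]
        rw [inv_mul_cancel_left₀ hm0]
      rw [SetLike.mem_coe]
      change (fun j : Fin r => Real.log (v i (g ⟨j, f j⟩)) - Real.log (v i (g ⟨j, f' j⟩))) ∈ _
      rw [h2]
      exact Submodule.smul_mem _ _ (Submodule.subset_span ⟨i, rfl⟩)
    have hfin := general A hA N t hN v 1 u hu (fun _ x => g x) (fun _ x => hg x) Set.univ
      isClosed_univ (fun _ _ _ _ => Set.mem_univ _) hgp 0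
    -- from vectors `m : Fin 1 → ℤ` to integers
    have hfin2 := hfin.image (fun m : Fin 1 → ℤ => m 0)
    refine hfin2.subset ?_
    intro m hm
    refine ⟨fun _ => m, ⟨Set.mem_univ _, fun hno => hm ?_⟩, rfl⟩
    have hW : member u (fun (_ : Fin 1) x => g x) (fun _ => m) = fun x => u x * g x ^ m := by
      funext x
      simp [member]
    rw [hW] at hno
    have hty : Typical A (fun x => u x * g x ^ m) := by
      rintro M η ⟨k, hk, hηk⟩ W hWV hWT hWp
      refine hno M η (fun j h0 => ?_) (fun i j => ?_) W hWV hWT hWp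
      · have := hηk j
        rw [h0, zero_pow hk.ne'] at this
        exact zero_ne_one this
      · have h1 := congrArg (v i) (hηk j)
        rw [map_pow, map_one] at h1
        have h2 := (pow_eq_one_iff_of_nonneg (AbsoluteValue.nonneg _ _) hk.ne').1 h1
        rw [h2, Real.log_one, abs_zero]
    exact ⟨hty, U_empty A _ hty⟩
  refine ⟨fun p hp g hg hspan => ?_, fun F _ _ _ v hv g hg hspan => ?_,
    fun v d g hg C hC hcone hgen B => general A hA N t hN v d u hu g hg C hC hcone hgen B⟩
  · have hfact : ∀ i, Fact (p i).Prime := fun i => ⟨hp i⟩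
    let τ : ∀ i, ℂ →+* PadicAlgCl (p i) := fun i =>
      Classical.choice (H936R2.exists_embedding (p i))
    refine key (fun i => TH526.ZT.pabs (p i) (τ i)) (fun x => (g x : ℂ))
      (fun x => Rat.cast_ne_zero.2 (hg x)) fun f f' hf T hT => ?_
    have h1 := TH526.ZT.span_real _ (hspan f f' hf T hT) (fun i : T => -Real.log (p i))
      (fun i => neg_ne_zero.2 (Real.log_pos (by exact_mod_cast (hp i).one_lt)).ne')
    rw [← h1]
    congr 2
    funext i j
    rw [TH526.ZT.log_pabs _ _ _ (hg _), TH526.ZT.log_pabs _ _ _ (hg _)]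
    push_cast
    ring
  · choose v' hv' using fun i => TH526.ZT.exists_abs_extend F (v i) (hv i)
    refine key v' (fun x => algebraMap F ℂ (g x)) (fun x => (map_ne_zero _).2 (hg x))
      fun f f' hf T hT => ?_
    simp only [hv']
    exact hspan f f' hf T hT

end Pool.Agent.Results.MP_c95b3b_ag.PowerSystems
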