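import Pool.Agent.N24.RW.All
import Pool.Agent.N763.RO.Torus

/-!
# MP_c95b3b_ag: Zilber's conjecture for the members of families of subvarieties of tori along random
orbits of Zariski dense groups

The families are those of the starting theorem `ManyParameters`: `F` is a finite system of polynomials in
the coordinates `x ∈ (ℂˣ)^k` and in auxiliary coordinates `y ∈ ℂ^N`, with coefficients `c q β` in
`ℤ[t_0; t_1, …, t_s]`, and `X_t` is the set of the `x` for which some `(x, y)` is a solution (`solT`).
Each coefficient has a well-defined order along each of the hypersurfaces `h_1, …, h_M` of the space of the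
parameters (`HasOrd`), and the tropicalizations of the family along the `h_l` exclude all linear subspaces
of dimension less than `k - m` (`GenericT`). Here the `h_l` are of degree one in `t_0`. `NoAtypicalT f K m X`
says that `X` has no atypical intersection with the cosets of algebraic subgroups of the torus by the points
whose coordinates are units integral over `ℤ[Γ]`.

**Part 1.** The exceptional parameters are a pronull set: for every `M₀` the closure of this set in the
product of the `ℤ_p^(1+s)` over the primes `p` that do not divide `M₀` has Haar measure zero.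

**Part 2.** Let `s_0, …, s_m'` be matrices in `SL_r(ℤ)`, `r ≥ 2`, which generate `SL_r(ℤ/q)` for all `q`
prime to some `q₀` (`Walk`; by strong approximation it is enough that they generate a Zariski dense
subgroup, possibly of infinite index), and `v ≠ 0` in `ℤ^r`. For almost all sequences `w` of indices there is
ONE set `E` of density zero such that for ALL families as above, with `1 + s ≤ r` parameters (any `1 + s`
different coordinates `j`), of subvarieties of tori of any dimension, all `K` and `Γ`: for all but finitely
many `n` outside `E` the member whose parameters are the coordinates of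
`s_(w (n-1)) ⋯ s_(w 0) v` has no atypical intersections.

The theorems of the starting files count the exceptional parameters in boxes; the vectors of a random orbit
are exponentially sparse, and a set of density zero, even with few elements, may contain the whole orbit.
Part 1 is false for sets of exceptional parameters of which only the number is known.

The proof: the starting library shows that a member is good if for each `l` some prime `p > P₀` divides
`h_l(t)` but not `G_l(t)`, `G_l` coprime to `h_l`. By helper514 the vectors with `p` exactly dividing `h_l` and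
not dividing `G_l` have density at least `1 / (4 p)` modulo `p ^ 2`. By the engine of helper24, helper300,
helper765, helper340, helper123, helper543 and helper195 the set of the vectors for which there is no such prime
is pronull, and random orbits visit it almost never; finally there are only countably many pairs `(h, G)`.
-/

set_option autoImplicit false

namespace Pool.Agent.Results.MP_c95b3b_ag.RandomOrbits

open Pool.Agent.R424.MP Pool.Agent.N24.RW Pool.Agent.N763.RO MeasureTheory Filter Topology

/-- **Zilber's conjecture for families of subvarieties of tori: the exceptional parameters are pronull, and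
the members along the random orbits of Zariski dense groups.** -/
theorem result :
    (∀ (s k N m M : ℕ) (κ : Type) [Finite κ] (supp : κ → Finset ((Fin k ⊕ Fin N) →₀ ℕ))
      (c : κ → ((Fin k ⊕ Fin N) →₀ ℕ) → Polynomial (MvPolynomial (Fin s) ℤ))
      (h : Fin M → Polynomial (MvPolynomial (Fin s) ℤ)), (∀ l, (h l).natDegree = 1) →
      ∀ (e : Fin M → κ → ((Fin k ⊕ Fin N) →₀ ℕ) → ℕ),
      (∀ l q, ∀ β ∈ supp q, HasOrd (h l) (c q β) (e l q β)) → GenericT m supp e →
      ∀ (K : Subfield ℂ) [Countable K] (Γ : Finset ℂ), (∀ γ ∈ Γ, IsAlgebraic ℚ γ) →
      (∀ γ ∈ Γ, γ ∈ K) →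
      ProNull {x : Fin (s + 1) → ℤ |
        ¬ NoAtypicalT (algebraMap (Algebra.adjoin ℤ (Γ : Set ℂ)) ℂ) K m
          (solT supp (fun q β => ((ev (x 0) (fun i => x i.succ) (c q β) : ℤ) : ℂ)))}) ∧
    (∀ (ι : Type) [Fintype ι] [DecidableEq ι], 2 ≤ Fintype.card ι →
      ∀ (W : Walk ι) (v : ι → ℤ), v ≠ 0 → ∀ᵐ w ∂(words W.m), ∃ E : Set ℕ,
      Tendsto (fun N : ℕ => (({n : ℕ | n < N ∧ n ∈ E}.ncard : ℕ) : ℝ) / (N : ℝ)) atTop (𝓝 0) ∧
      ∀ (s k N m M : ℕ) (j : Fin (s + 1) → ι), Function.Injective j →
      ∀ (κ : Type) [Finite κ] (supp : κ → Finset ((Fin k ⊕ Fin N) →₀ ℕ))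
        (c : κ → ((Fin k ⊕ Fin N) →₀ ℕ) → Polynomial (MvPolynomial (Fin s) ℤ))
        (h : Fin M → Polynomial (MvPolynomial (Fin s) ℤ)), (∀ l, (h l).natDegree = 1) →
      ∀ (e : Fin M → κ → ((Fin k ⊕ Fin N) →₀ ℕ) → ℕ),
        (∀ l q, ∀ β ∈ supp q, HasOrd (h l) (c q β) (e l q β)) → GenericT m supp e →
      ∀ (K : Subfield ℂ) [Countable K] (Γ : Finset ℂ), (∀ γ ∈ Γ, IsAlgebraic ℚ γ) →
        (∀ γ ∈ Γ, γ ∈ K) →
        {n : ℕ | n ∉ E ∧ ¬ NoAtypicalT (algebraMap (Algebra.adjoin ℤ (Γ : Set ℂ)) ℂ) K m
          (solT supp (fun q β => ((ev (orb W v w n (j 0)) (fun i => orb W v w n (j i.succ))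
            (c q β) : ℤ) : ℂ)))}.Finite) :=
  ⟨fun _ _ _ _ _ _ _ supp c h hdeg e he hgen K _ Γ hΓ hΓK =>
      torus_null crit clo supp c h hdeg e he hgen K Γ hΓ hΓK,
    fun _ _ _ hι W v hv => torus_orbits crit clo main hι W v hv⟩

end Pool.Agent.Results.MP_c95b3b_ag.RandomOrbits
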